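import Pool.Agent.R751.FlH

set_option autoImplicit false

/-!
# The flower conjecture fails already for `n = 3`

For `f(x) = 131 cos(2πx) - 29 sin(2πx) - 97 cos(6πx) + 25 sin(6πx)` the measure equidistributed on the
orbit of `479/8191` under the doubling map (period 13) is maximizing, and every flower that contains its
support has at least five petals.
-/

namespace Pool.Agent.Results.MP_38b438_an.FlowerFails

open MeasureTheory Set Real

/-- The doubling map `x ↦ 2x` of the circle `ℝ/ℤ`. -/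
def E2 (x : UnitAddCircle) : UnitAddCircle := x + x

/-- `μ` is an `E2`-invariant Borel probability measure on the circle. -/
def IsInvariantProb (μ : Measure UnitAddCircle) : Prop := IsProbabilityMeasure μ ∧ μ.map E2 = μ

/-- `μ` is a maximizing measure of `f`. -/
def IsMaximizing (f : UnitAddCircle → ℝ) (μ : Measure UnitAddCircle) : Prop :=
  IsInvariantProb μ ∧ ∀ ν : Measure UnitAddCircle, IsInvariantProb ν → ∫ x, f x ∂ν ≤ ∫ x, f x ∂μ

/-- Closed non-degenerate arcs: images of the intervals `[a, b]` with `a < b < a + 1`. -/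
def IsArc (A : Set UnitAddCircle) : Prop :=
  ∃ a b : ℝ, a < b ∧ b < a + 1 ∧ A = (fun t : ℝ => (t : UnitAddCircle)) '' Icc a b

/-- The half turn `x ↦ x + 1/2`. -/
noncomputable def halfTurn (x : UnitAddCircle) : UnitAddCircle := x + ((1 / 2 : ℝ) : UnitAddCircle)

/-- Flowers: finite unions `X` of closed non-degenerate arcs with `X ∪ (X + 1/2)` the whole circle and
`X ∩ (X + 1/2)` the boundary of `X`. -/
def IsFlower (X : Set UnitAddCircle) : Prop :=
  (∃ F : Set (Set UnitAddCircle), F.Finite ∧ (∀ A ∈ F, IsArc A) ∧ X = ⋃₀ F) ∧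
    X ∪ halfTurn '' X = univ ∧ X ∩ halfTurn '' X = frontier X

/-- The petals of `X`: its connected components. -/
def petals (X : Set UnitAddCircle) : Set (Set UnitAddCircle) :=
  (fun x => connectedComponentIn X x) '' X

/-- The set `V_n` of nonzero real trigonometric polynomials with odd frequencies `1 ≤ k ≤ n`. -/
def InV (n : ℕ) (f : UnitAddCircle → ℝ) : Prop :=
  ∃ a b : ℕ → ℝ, (∃ k, Odd k ∧ k ≤ n ∧ (a k ≠ 0 ∨ b k ≠ 0)) ∧
    ∀ t : ℝ, f (t : UnitAddCircle) =
      ∑ k ∈ (Finset.Icc 1 n).filter Odd, (a k * cos (2 * π * k * t) + b k * sin (2 * π * k * t))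

lemma orbit_coe (i : ℕ) : ((Pool.Agent.R751.Flower.o i : ℝ) : UnitAddCircle) =
    ((479 * 2 ^ i / 8191 : ℝ) : UnitAddCircle) := by
  rw [Pool.Agent.R751.Flower.coe_eq_iff']
  refine ⟨((479 * 2 ^ i / 8191 : ℕ) : ℤ), ?_⟩
  have h : ((479 * 2 ^ i : ℕ) : ℝ) = 8191 * ((479 * 2 ^ i / 8191 : ℕ) : ℝ) +
      ((479 * 2 ^ i % 8191 : ℕ) : ℝ) := by
    exact_mod_cast (Nat.div_add_mod (479 * 2 ^ i) 8191).symm
  unfold Pool.Agent.R751.Flower.o Pool.Agent.R751.Flower.qv
  rw [Int.cast_natCast]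
  push_cast at h ⊢
  linarith

/-- The flower conjecture is false: for
`f(x) = 131 cos(2πx) - 29 sin(2πx) - 97 cos(6πx) + 25 sin(6πx)` in `V_3` the measure equidistributed on
the orbit of `479/8191` is maximizing, and every flower containing its support has at least five petals. -/
theorem result :
    (∃ f : UnitAddCircle → ℝ,
      (∀ t : ℝ, f (t : UnitAddCircle) = 131 * cos (2 * π * t) - 29 * sin (2 * π * t) -
        97 * cos (6 * π * t) + 25 * sin (6 * π * t)) ∧ InV 3 f ∧
      ∃ μ : Measure UnitAddCircle, μ = (13 : ENNReal)⁻¹ • ∑ i ∈ Finset.range 13,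
        Measure.dirac ((479 * 2 ^ i / 8191 : ℝ) : UnitAddCircle) ∧ IsMaximizing f μ ∧
      ∀ X : Set UnitAddCircle, IsFlower X → μ.support ⊆ X → 5 ≤ (petals X).encard) ∧
    ¬ ∀ n : ℕ, Odd n → ∀ f : UnitAddCircle → ℝ, InV n f → ∀ μ : Measure UnitAddCircle,
      IsMaximizing f μ →
        ∃ X : Set UnitAddCircle, IsFlower X ∧ (petals X).encard ≤ n ∧ μ.support ⊆ X := by
  have main : ∃ f : UnitAddCircle → ℝ,
      (∀ t : ℝ, f (t : UnitAddCircle) = 131 * cos (2 * π * t) - 29 * sin (2 * π * t) -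
        97 * cos (6 * π * t) + 25 * sin (6 * π * t)) ∧ InV 3 f ∧
      ∃ μ : Measure UnitAddCircle, μ = (13 : ENNReal)⁻¹ • ∑ i ∈ Finset.range 13,
        Measure.dirac ((479 * 2 ^ i / 8191 : ℝ) : UnitAddCircle) ∧ IsMaximizing f μ ∧
      ∀ X : Set UnitAddCircle, IsFlower X → μ.support ⊆ X → 5 ≤ (petals X).encard := by
    refine ⟨Pool.Agent.R751.Flower.fC, fun t => Pool.Agent.R751.Flower.fC_coe t, ?_,
      Pool.Agent.R751.Flower.μ0, ?_, ⟨⟨?_, ?_⟩, ?_⟩, ?_⟩
    · refine ⟨fun k => if k = 1 then 131 else -97, fun k => if k = 1 then -29 else 25,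
        ⟨1, by decide, by norm_num, Or.inl (by norm_num)⟩, fun t => ?_⟩
      rw [Pool.Agent.R751.Flower.fC_coe]
      have hset : (Finset.Icc 1 3).filter Odd = {1, 3} := by decide
      rw [hset, Finset.sum_pair (by norm_num)]
      unfold Pool.Agent.R751.Flower.f
      have e1 : 2 * π * ((1 : ℕ) : ℝ) * t = 2 * π * t := by push_cast; ring
      have e3 : 2 * π * ((3 : ℕ) : ℝ) * t = 6 * π * t := by push_cast; ring
      rw [e1, e3]
      norm_num
      ring
    · unfold Pool.Agent.R751.Flower.μ0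
      simp only [orbit_coe]
    · exact Pool.Agent.R751.Flower.prob_μ0
    · exact Pool.Agent.R751.Flower.inv_μ0
    · rintro ν ⟨hν1, hν2⟩
      rw [Pool.Agent.R751.Flower.int_μ0]
      exact Pool.Agent.R751.Flower.int_le ν hν2
    · intro X hX hsupp
      exact Pool.Agent.R751.Flower.five_petals hX.2.2
        (fun i hi => hsupp (Pool.Agent.R751.Flower.mem_support_μ0 i hi))
  refine ⟨main, fun hall => ?_⟩
  obtain ⟨f, -, hf, μ, -, hμ, hX⟩ := main
  obtain ⟨X, hX1, hX2, hX3⟩ := hall 3 (by decide) f hf μ hμ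
  have h5 := (hX X hX1 hX3).trans hX2
  have h6 : ((5 : ℕ) : ℕ∞) ≤ ((3 : ℕ) : ℕ∞) := h5
  rw [Nat.cast_le] at h6
  omega

end Pool.Agent.Results.MP_38b438_an.FlowerFails
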